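import Mathlib

/-!
Hat guessing on complete bipartite graphs, and its use for sums of sections.
-/

namespace Pool.Agent.H2.LF

open scoped BigOperators

/-- Hat guessing on a complete bipartite graph. The left vertices are indexed by `Q₂` and have
colours in `Q₁`; the right vertices are indexed by all functions `g` of the left colouring and have
colours in `Q₂`; the right vertex `g` guesses `g x`.  The left vertices can guess in such a way that
somebody is always right. -/
theorem hat (Q₁ Q₂ : Type) [Nonempty Q₁] [Nonempty Q₂] :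
    ∃ G : (((Q₂ → Q₁) → Q₂) → Q₂) → Q₂ → Q₁, ∀ (x : Q₂ → Q₁) (y : ((Q₂ → Q₁) → Q₂) → Q₂),
      (∃ g : (Q₂ → Q₁) → Q₂, g x = y g) ∨ ∃ i : Q₂, G y i = x i := by
  classical
  have key : ∀ y : ((Q₂ → Q₁) → Q₂) → Q₂, ∃ e : Q₂ → Q₂ → Q₁, ∀ x : Q₂ → Q₁,
      (∀ g : (Q₂ → Q₁) → Q₂, g x ≠ y g) → ∃ i, e i = x := by
    intro y
    by_cases hne : Nonempty {x : Q₂ → Q₁ // ∀ g : (Q₂ → Q₁) → Q₂, g x ≠ y g}
    · rcases Function.Embedding.total {x : Q₂ → Q₁ // ∀ g : (Q₂ → Q₁) → Q₂, g x ≠ y g} Q₂ with
        ⟨⟨j, hj⟩⟩ | ⟨⟨j, hj⟩⟩
      · refine ⟨fun i => (Function.invFun j i).1, fun x hx => ⟨j ⟨x, hx⟩, ?_⟩⟩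
        simp only
        rw [Function.leftInverse_invFun hj]
      · exfalso
        let j' : Q₂ → (Q₂ → Q₁) := fun q => (j q).1
        have hj' : Function.Injective j' := fun a b hab => hj (Subtype.ext hab)
        let g : (Q₂ → Q₁) → Q₂ := Function.invFun j'
        exact (j (y g)).2 g (Function.leftInverse_invFun hj' (y g))
    · exact ⟨fun _ _ => Classical.arbitrary Q₁, fun x hx => absurd ⟨⟨x, hx⟩⟩ hne⟩
  choose e he using key
  refine ⟨fun y i => e y i i, fun x y => ?_⟩
  by_cases h : ∃ g : (Q₂ → Q₁) → Q₂, g x = y g
  · exact Or.inl h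
  · right
    obtain ⟨i, hi⟩ := he y x (fun g hg => h ⟨g, hg⟩)
    exact ⟨i, congrFun hi i⟩

/-- Sums of sections.  Let `C c` (`c ∈ S`) be finitely many nonzero subgroups of a finite abelian
group `A`.  For some finite index set `ι` there are functions `f c : A^ι → A^ι` with
`f c a - a ∈ (C c)^ι` whose sum over `c ∈ S`, at independent arguments, omits a value. -/
theorem exists_omitted {A : Type} [AddCommGroup A] [Finite A] [Nontrivial A] {P : Type*}
    [DecidableEq P] (C : P → AddSubgroup A) :
    ∀ (n : ℕ) (S : Finset P), S.card = n → (∀ c ∈ S, C c ≠ ⊥) →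
      ∃ (ι : Type) (_ : Finite ι) (w : ι → A) (f : P → (ι → A) → (ι → A)),
        (∀ c a β, f c a β - a β ∈ C c) ∧ ∀ a : P → ι → A, ∑ c ∈ S, f c (a c) ≠ w := by
  classical
  intro n
  induction n using Nat.strong_induction_on with
  | _ n ih =>
    intro S hn hC
    rcases Nat.lt_or_ge n 2 with h2 | h2
    · rcases Finset.eq_empty_or_nonempty S with hS | ⟨p, hp⟩
      · obtain ⟨z, hz⟩ := exists_ne (0 : A)
        refine ⟨Unit, inferInstance, fun _ => z, fun _ a => a, fun c a β => ?_, fun a => ?_⟩
        · rw [sub_self]; exact zero_mem _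
        · rw [hS, Finset.sum_empty]
          intro h
          exact hz (congrFun h ()).symm
      · have hS : S = {p} := by
          apply Finset.eq_singleton_iff_unique_mem.2
          refine ⟨hp, fun x hx => ?_⟩
          have : S.card ≤ 1 := by omega
          exact Finset.card_le_one.1 this x hx p hp
        obtain ⟨z, hz0'⟩ := AddSubgroup.ne_bot_iff_exists_ne_zero.1 (hC p hp)
        obtain ⟨z, hz⟩ := z
        have hz0 : z ≠ 0 := fun h => hz0' (Subtype.ext h)
        refine ⟨Unit, inferInstance, fun _ => 0,
          fun c a => if c = p ∧ a () = 0 then fun _ => z else a, fun c a β => ?_, fun a => ?_⟩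
        · dsimp only
          split_ifs with h
          · obtain ⟨rfl, ha⟩ := h
            have : a β = 0 := ha
            rw [this, sub_zero]; exact hz
          · rw [sub_self]; exact zero_mem _
        · rw [hS, Finset.sum_singleton]
          intro h
          have h1 := congrFun h ()
          dsimp only at h1
          split_ifs at h1 with h3
          · exact hz0 h1
          · exact h3 ⟨rfl, h1⟩
    · obtain ⟨a, ha, b, hb, hab⟩ := Finset.one_lt_card.1 (by omega : 1 < S.card)
      obtain ⟨ι₁, hι₁, w₁, f₁, hf₁, hw₁⟩ := ih (S.erase a).card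
        (by rw [Finset.card_erase_of_mem ha]; omega) (S.erase a) rfl
        (fun c hc => hC c (Finset.mem_of_mem_erase hc))
      obtain ⟨ι₂, hι₂, w₂, f₂, hf₂, hw₂⟩ := ih (S.erase b).card
        (by rw [Finset.card_erase_of_mem hb]; omega) (S.erase b) rfl
        (fun c hc => hC c (Finset.mem_of_mem_erase hc))
      obtain ⟨G, hG⟩ := hat (ι₁ → A) (ι₂ → A)
      -- the new index set
      let B : Type := ((ι₂ → A) → (ι₁ → A)) → (ι₂ → A)
      let ι : Type := ((ι₂ → A) × ι₁) ⊕ (B × ι₂)
      have hB : Finite B := inferInstance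
      let L : (ι → A) → (ι₂ → A) → (ι₁ → A) := fun v i β => v (Sum.inl (i, β))
      let Rt : (ι → A) → B → (ι₂ → A) := fun v g β => v (Sum.inr (g, β))
      let f : P → (ι → A) → (ι → A) := fun c v => Sum.elim
        (fun iβ : (ι₂ → A) × ι₁ =>
          if c = a then L v iβ.1 iβ.2
          else if c = b then (f₁ b (L v iβ.1 + G (Rt v) iβ.1) - G (Rt v) iβ.1) iβ.2
          else f₁ c (L v iβ.1) iβ.2)
        (fun gβ : B × ι₂ =>
          if c = b then Rt v gβ.1 gβ.2
          else if c = a then (f₂ a (Rt v gβ.1 + gβ.1 (L v)) - gβ.1 (L v)) gβ.2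
          else f₂ c (Rt v gβ.1) gβ.2)
      let w : ι → A := Sum.elim (fun iβ => w₁ iβ.2) (fun gβ => w₂ gβ.2)
      refine ⟨ι, inferInstance, w, f, ?_, ?_⟩
      · rintro c v (⟨i, β⟩ | ⟨g, β⟩)
        · simp only [f, Sum.elim_inl]
          split_ifs with h1 h3
          · simp only [L, sub_self]; exact zero_mem _
          · have := hf₁ b (L v i + G (Rt v) i) β
            rw [h3]
            convert this using 1
            simp only [Pi.sub_apply, Pi.add_apply, L]
            abel
          · exact hf₁ c (L v i) β
        · simp only [f, Sum.elim_inr]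
          split_ifs with h1 h3
          · simp only [Rt, sub_self]; exact zero_mem _
          · have := hf₂ a (Rt v g + g (L v)) β
            rw [h3]
            convert this using 1
            simp only [Pi.sub_apply, Pi.add_apply, Rt]
            abel
          · exact hf₂ c (Rt v g) β
      · intro u hu
        rcases hG (L (u a)) (Rt (u b)) with ⟨g, hg⟩ | ⟨i, hi⟩
        · -- `a` guesses a block of `b`
          refine hw₂ (fun c => if c = a then Rt (u a) g + g (L (u a)) else Rt (u c) g) ?_
          have h1 : ∀ β, (∑ c ∈ S, f c (u c)) (Sum.inr (g, β)) = w₂ β := by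
            intro β; rw [hu]; rfl
          ext β
          rw [← h1 β, Finset.sum_apply, Finset.sum_apply, ← Finset.sum_erase_add _ _ hb]
          have ha' : a ∈ S.erase b := Finset.mem_erase.2 ⟨hab, ha⟩
          rw [← Finset.sum_erase_add _ _ ha', ← Finset.sum_erase_add _ _ ha']
          have h3 : ∑ c ∈ (S.erase b).erase a,
              f₂ c (if c = a then Rt (u a) g + g (L (u a)) else Rt (u c) g) β =
              ∑ c ∈ (S.erase b).erase a, f c (u c) (Sum.inr (g, β)) := by
            apply Finset.sum_congr rfl
            intro c hc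
            have hca : c ≠ a := Finset.ne_of_mem_erase hc
            have hcb : c ≠ b := Finset.ne_of_mem_erase (Finset.mem_of_mem_erase hc)
            simp only [f, Sum.elim_inr, if_neg hca, if_neg hcb]
          rw [h3, add_assoc]
          congr 1
          simp only [f, Sum.elim_inr, if_true, if_neg hab]
          rw [← hg]
          simp only [Pi.sub_apply]
          abel
        · -- `b` guesses a block of `a`
          refine hw₁ (fun c => if c = b then L (u b) i + G (Rt (u b)) i else L (u c) i) ?_
          have h1 : ∀ β, (∑ c ∈ S, f c (u c)) (Sum.inl (i, β)) = w₁ β := by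
            intro β; rw [hu]; rfl
          ext β
          rw [← h1 β, Finset.sum_apply, Finset.sum_apply, ← Finset.sum_erase_add _ _ ha]
          have hb' : b ∈ S.erase a := Finset.mem_erase.2 ⟨hab.symm, hb⟩
          rw [← Finset.sum_erase_add _ _ hb', ← Finset.sum_erase_add _ _ hb']
          have h3 : ∑ c ∈ (S.erase a).erase b,
              f₁ c (if c = b then L (u b) i + G (Rt (u b)) i else L (u c) i) β =
              ∑ c ∈ (S.erase a).erase b, f c (u c) (Sum.inl (i, β)) := by
            apply Finset.sum_congr rfl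
            intro c hc
            have hcb : c ≠ b := Finset.ne_of_mem_erase hc
            have hca : c ≠ a := Finset.ne_of_mem_erase (Finset.mem_of_mem_erase hc)
            simp only [f, Sum.elim_inl, if_neg hca, if_neg hcb]
          rw [h3, add_assoc]
          congr 1
          simp only [f, Sum.elim_inl, if_true, if_neg hab.symm]
          rw [← hi]
          simp only [Pi.sub_apply]
          abel

end Pool.Agent.H2.LF
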