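import Pool.Agent.H88.LFMain
import Pool.Agent.H2.LF.Hat

/-!
A separating proper right ideal of finite index makes a pattern avoidable.
-/

namespace Pool.Agent.H2.LF

open scoped BigOperators
open Pool.Agent.H88.LF Pool.Agent.H88.LF.DualMod

universe u

variable {R : Type u} [Ring R] {h k : ℕ}

/-- The `n`-torsion of `ℚ/ℤ`. -/
def tors (n : ℕ) : AddSubgroup QZ where
  carrier := {q | n • q = 0}
  zero_mem' := smul_zero n
  add_mem' := fun {a b} ha hb => by
    change n • (a + b) = 0
    rw [smul_add, show n • a = 0 from ha, show n • b = 0 from hb, add_zero]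
  neg_mem' := fun {a} ha => by
    change n • (-a) = 0
    rw [smul_neg, show n • a = 0 from ha, neg_zero]

theorem mem_tors {n : ℕ} {q : QZ} : q ∈ tors n ↔ n • q = 0 := Iff.rfl

theorem finite_tors (n : ℕ) (hn : 0 < n) : Finite (tors n) := by
  have hT : Set.Finite {q : QZ | n • q = 0} := by
    refine Set.Finite.subset (Set.finite_range
      (fun z : Fin n => ((((z : ℕ) : ℚ) / n : ℚ) : QZ))) ?_
    intro q hq
    obtain ⟨z, hz⟩ := exists_rep q n hn hq
    refine ⟨⟨(z % n).toNat, ?_⟩, ?_⟩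
    · have h1 := Int.emod_nonneg z (by exact_mod_cast hn.ne' : (n : ℤ) ≠ 0)
      have h2 := Int.emod_lt_of_pos z (by exact_mod_cast hn : (0 : ℤ) < n)
      omega
    · rw [hz]
      have h1 := Int.emod_nonneg z (by exact_mod_cast hn.ne' : (n : ℤ) ≠ 0)
      have h3 : (((z % n).toNat : ℕ) : ℚ) = ((z % n : ℤ) : ℚ) := by
        have : (((z % n).toNat : ℕ) : ℤ) = z % n := Int.toNat_of_nonneg h1
        exact_mod_cast this
      simp only [h3]
      have h4 : (z : ℚ) / n = ((z % n : ℤ) : ℚ) / n + ((z / n : ℤ) : ℚ) := by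
        have hn' : (n : ℚ) ≠ 0 := by exact_mod_cast hn.ne'
        have h5 : (z : ℚ) = ((z % n : ℤ) : ℚ) + (n : ℚ) * ((z / n : ℤ) : ℚ) := by
          exact_mod_cast (Int.emod_add_mul_ediv z n).symm
        field_simp
        linarith
      rw [h4, AddCircle.coe_add]
      have h6 : (((z / n : ℤ) : ℚ) : QZ) = 0 := by
        rw [AddCircle.coe_eq_zero_iff]
        exact ⟨z / n, by simp⟩
      rw [h6, add_zero]
  exact hT.to_subtype

/-- Sufficiency: a separating proper right ideal of finite index makes the pattern avoidable. -/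
theorem avoidable_of_separates (I : Submodule Rᵐᵒᵖ R) (hI : I ≠ ⊤) [Finite (R ⧸ I)]
    (F : Fin h → R) (G : Fin k → R) (τ : Fin k → Fin h) (κ : Fin k → Fin k)
    (hS : Separates I F (specialise G τ κ)) : Avoidable F G τ κ := by
  classical
  set V : Fin k → Fin h → R ⧸ I :=
    fun c i => Submodule.Quotient.mk (specialise G τ κ c i) with hV
  have hi : Function.Injective (formHom I F) := formHom_injective I F hS.1
  set N := addOrderOf (Submodule.Quotient.mk (1 : R) : R ⧸ I) with hN
  have hNpos : 0 < N := addOrderOf_pos _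
  -- `N` kills `R / I`
  have hNkill : ∀ x : R ⧸ I, N • x = 0 := by
    intro x
    obtain ⟨r, rfl⟩ := Submodule.Quotient.mk_surjective I x
    have h1 : N • (Submodule.Quotient.mk (1 : R) : R ⧸ I) = 0 := addOrderOf_nsmul_eq_zero _
    have h2 : (Submodule.Quotient.mk r : R ⧸ I) = rmul I r (Submodule.Quotient.mk (1 : R)) := by
      rw [rmul_mk, one_mul]
    rw [h2, ← map_nsmul, h1, map_zero]
  have hNkill' : ∀ x : Fin h → R ⧸ I, N • x = 0 := fun x => funext fun i => hNkill (x i)
  have hN1 : N ≠ 1 := by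
    intro h1
    apply hI
    rw [hN, AddMonoid.addOrderOf_eq_one_iff, Submodule.Quotient.mk_eq_zero] at h1
    rw [eq_top_iff]
    intro x _
    have := I.smul_mem (MulOpposite.op x) h1
    simpa using this
  -- the group of values
  let A : AddSubgroup QZ := tors N
  have hAfin : Finite A := finite_tors N hNpos
  have hval : ∀ (Y : (Fin h → R ⧸ I) →+ QZ) (v : Fin h → R ⧸ I), Y v ∈ tors N := by
    intro Y v
    rw [mem_tors, ← map_nsmul, hNkill', map_zero]
  obtain ⟨w₁, hw₁⟩ := exists_char_order (Submodule.Quotient.mk (1 : R) : R ⧸ I)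
  have hw₁0 : w₁ (Submodule.Quotient.mk (1 : R)) ≠ 0 := by
    rw [hw₁]
    intro h0
    obtain ⟨z, hz⟩ := (AddCircle.coe_eq_zero_iff (1 : ℚ)).1 h0
    have hN' : (2 : ℚ) ≤ N := by exact_mod_cast (by omega : 2 ≤ N)
    have hz1 : (z : ℚ) = (N : ℚ)⁻¹ := by rw [zsmul_eq_mul, mul_one] at hz; exact hz
    have h1 : (0 : ℚ) < (N : ℚ)⁻¹ := by positivity
    have h2 : (N : ℚ)⁻¹ < 1 := by
      rw [inv_lt_one₀ (by linarith)]; linarith
    rw [← hz1] at h1 h2
    have h3 : 0 < z := by exact_mod_cast h1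
    have h4 : z < 1 := by exact_mod_cast h2
    omega
  have hAnt : Nontrivial A := by
    refine ⟨⟨⟨w₁ (Submodule.Quotient.mk (1 : R)), ?_⟩, 0, fun h0 => hw₁0 (congrArg Subtype.val h0)⟩⟩
    change w₁ _ ∈ tors N
    rw [mem_tors, ← map_nsmul, hNkill, map_zero]
  -- the subgroups `C c` of possible changes
  let C : Fin k → AddSubgroup A := fun c =>
    { carrier := {q | ∃ Z : (Fin h → R ⧸ I) →+ QZ, (∀ x, Z (formHom I F x) = 0) ∧ Z (V c) = q.1}
      zero_mem' := ⟨0, fun _ => rfl, rfl⟩
      add_mem' := by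
        rintro a b ⟨Z, hZ, hZa⟩ ⟨Z', hZ', hZb⟩
        exact ⟨Z + Z', fun x => by rw [AddMonoidHom.add_apply, hZ, hZ', add_zero],
          by rw [AddMonoidHom.add_apply, hZa, hZb]; rfl⟩
      neg_mem' := by
        rintro a ⟨Z, hZ, hZa⟩
        exact ⟨-Z, fun x => by rw [AddMonoidHom.neg_apply, hZ, neg_zero],
          by rw [AddMonoidHom.neg_apply, hZa]; rfl⟩ }
  -- the copies that matter
  let S : Finset (Fin k) := Finset.univ.filter fun c => V c ≠ 0
  have hC : ∀ c ∈ S, C c ≠ ⊥ := by
    intro c hc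
    have hVc : V c ≠ 0 := (Finset.mem_filter.1 hc).2
    -- `V c` is not in the range of `formHom`
    have hnot : V c ∉ (formHom I F).range := by
      rintro ⟨q, hq⟩
      obtain ⟨x, rfl⟩ := Submodule.Quotient.mk_surjective I q
      have hx : x ∈ I := hS.2 c x fun i => (Submodule.Quotient.eq I).1 (congrFun hq i).symm
      apply hVc
      rw [← hq, (Submodule.Quotient.mk_eq_zero I).2 hx, map_zero]
    have hQfin : Finite (Fin h → R ⧸ I) := inferInstance
    have hQfin2 : Finite ((Fin h → R ⧸ I) ⧸ (formHom I F).range) := inferInstance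
    obtain ⟨Z, hZ⟩ := exists_char_order
      (QuotientAddGroup.mk (V c) : (Fin h → R ⧸ I) ⧸ (formHom I F).range)
    set m := addOrderOf (QuotientAddGroup.mk (V c) : (Fin h → R ⧸ I) ⧸ (formHom I F).range) with hm
    have hmpos : 0 < m := addOrderOf_pos _
    have hm1 : m ≠ 1 := by
      intro h1
      rw [hm, AddMonoid.addOrderOf_eq_one_iff, QuotientAddGroup.eq_zero_iff] at h1
      exact hnot h1
    let Z' : (Fin h → R ⧸ I) →+ QZ := Z.comp (QuotientAddGroup.mk' _)
    have hZ'V : Z' (V c) = (((m : ℚ)⁻¹ : ℚ) : QZ) := hZ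
    have hZ'F : ∀ x, Z' (formHom I F x) = 0 := by
      intro x
      change Z (QuotientAddGroup.mk (formHom I F x)) = 0
      have : (QuotientAddGroup.mk (formHom I F x) : (Fin h → R ⧸ I) ⧸ (formHom I F).range) = 0 := by
        rw [QuotientAddGroup.eq_zero_iff]
        exact ⟨x, rfl⟩
      rw [this, map_zero]
    rw [AddSubgroup.ne_bot_iff_exists_ne_zero]
    refine ⟨⟨⟨Z' (V c), hval Z' (V c)⟩, ⟨Z', hZ'F, rfl⟩⟩, ?_⟩
    intro h0
    have h1 : Z' (V c) = 0 := congrArg (fun q => (q.1.1 : QZ)) h0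
    rw [hZ'V] at h1
    obtain ⟨z, hz⟩ := (AddCircle.coe_eq_zero_iff (1 : ℚ)).1 h1
    have hN' : (2 : ℚ) ≤ m := by exact_mod_cast (by omega : 2 ≤ m)
    have hz1 : (z : ℚ) = (m : ℚ)⁻¹ := by rw [zsmul_eq_mul, mul_one] at hz; exact hz
    have h1 : (0 : ℚ) < (m : ℚ)⁻¹ := by positivity
    have h2 : (m : ℚ)⁻¹ < 1 := by
      rw [inv_lt_one₀ (by linarith)]; linarith
    rw [← hz1] at h1 h2
    have h3 : 0 < z := by exact_mod_cast h1
    have h4 : z < 1 := by exact_mod_cast h2
    omega
  obtain ⟨ι, hι, w, f, hf, hw⟩ := exists_omitted C S.card S rfl hC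
  have hιf : Fintype ι := Fintype.ofFinite ι
  -- extensions of characters
  choose Y hY using fun u : (R ⧸ I) →+ QZ => extend_char (formHom I F) hi u
  -- the values of the extensions
  let val : Fin k → (ι → DualMod I) → ι → A := fun c u β => ⟨Y (hom I (u β)) (V c), hval _ _⟩
  choose Z hZF hZV using fun (c : Fin k) (u : ι → DualMod I) (β : ι) => hf c (val c u) β
  let X : Fin k → (ι → DualMod I) → ι → ((Fin h → R ⧸ I) →+ QZ) := fun c u β =>
    Y (hom I (u β)) + if c ∈ S then Z c u β else 0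
  have hXF : ∀ c u β x, X c u β (formHom I F x) = ev I (u β) x := by
    intro c u β x
    simp only [X]
    split_ifs
    · rw [AddMonoidHom.add_apply, hZF, add_zero, hY]; rfl
    · rw [add_zero, hY]; rfl
  have hXV : ∀ c ∈ S, ∀ u β, X c u β (V c) = (f c (val c u) β : QZ) := by
    intro c hc u β
    simp only [X, if_pos hc]
    rw [AddMonoidHom.add_apply, hZV c u β]
    change (val c u β : QZ) + ((f c (val c u) β - val c u β : A) : QZ) = _
    rw [← AddSubgroup.coe_add]
    congr 1
    abel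
  have hXV0 : ∀ c ∉ S, ∀ u β, X c u β (V c) = 0 := by
    intro c hc u β
    have : V c = 0 := by
      by_contra h0
      exact hc (Finset.mem_filter.2 ⟨Finset.mem_univ _, h0⟩)
    rw [this, map_zero]
  let φ : Fin k → (ι → DualMod I) → Fin h → (ι → DualMod I) := fun c u i β =>
    (X c u β).comp (AddMonoidHom.single (fun _ : Fin h => R ⧸ I) i)
  have hev : ∀ c u i β x, ev I (φ c u i β) x = X c u β (Pi.single i x) := fun _ _ _ _ _ => rfl
  have hevsum : ∀ {κ' : Type} (s : Finset κ') (g : κ' → DualMod I) (x : R ⧸ I),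
      ev I (∑ i ∈ s, g i) x = ∑ i ∈ s, ev I (g i) x := by
    intro κ' s g x
    let e : DualMod I →+ QZ := ⟨⟨fun g => ev I g x, rfl⟩, fun a b => rfl⟩
    exact map_sum e g s
  -- the omitted element
  have hwz : ∀ β, ∃ z : ℤ, (w β : QZ) = z • w₁ (Submodule.Quotient.mk (1 : R)) := by
    intro β
    obtain ⟨z, hz⟩ := exists_rep (w β : QZ) N hNpos (w β).2
    refine ⟨z, ?_⟩
    rw [hw₁, hz, ← AddCircle.coe_zsmul, zsmul_eq_mul, div_eq_mul_inv]
  choose z hz using hwz
  let W : ι → DualMod I := fun β => z β • w₁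
  have hW : ∀ β, ev I (W β) (Submodule.Quotient.mk (1 : R)) = (w β : QZ) := by
    intro β
    rw [hz β]
    rfl
  refine ⟨ι → DualMod I, inferInstance, inferInstance, inferInstance, φ, W, ?_, ?_⟩
  · intro c u
    ext β
    rw [Finset.sum_apply]
    apply ext' I
    intro x
    rw [hevsum]
    have h1 : ∀ i, ev I ((F i • φ c u i) β) x = X c u β (Pi.single i (rmul I (F i) x)) := by
      intro i
      rw [Pi.smul_apply, ev_smul, hev]
    rw [Finset.sum_congr rfl fun i _ => h1 i, ← map_sum, Finset.univ_sum_single]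
    exact hXF c u β x
  · intro u heq
    refine hw (fun c => val c (u c)) ?_
    ext β
    have h0 := congrArg (fun g => ev I (g β) (Submodule.Quotient.mk (1 : R))) heq
    rw [sum_specialise G τ κ (fun c i => φ c (u c) i), hW, Finset.sum_apply, hevsum] at h0
    have h1 : ∀ c, ev I ((∑ i, specialise G τ κ c i • φ c (u c) i) β)
        (Submodule.Quotient.mk (1 : R)) = X c (u c) β (V c) := by
      intro c
      rw [Finset.sum_apply, hevsum]
      have h2 : ∀ i, ev I ((specialise G τ κ c i • φ c (u c) i) β)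
          (Submodule.Quotient.mk (1 : R)) = X c (u c) β (Pi.single i (V c i)) := by
        intro i
        rw [Pi.smul_apply, ev_smul, hev, rmul_mk, one_mul]
      rw [Finset.sum_congr rfl fun i _ => h2 i, ← map_sum, Finset.univ_sum_single]
    rw [Finset.sum_congr rfl fun c _ => h1 c] at h0
    rw [← h0, Finset.sum_apply, AddSubgroup.val_finsetSum, Finset.sum_filter]
    apply Finset.sum_congr rfl
    intro c _
    split_ifs with hc
    · exact (hXV c (Finset.mem_filter.2 ⟨Finset.mem_univ _, hc⟩) (u c) β).symm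
    · exact (hXV0 c (fun h => hc (Finset.mem_filter.1 h).2) (u c) β).symm

end Pool.Agent.H2.LF
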